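import Pool.Agent.Helper85_Idx.Stmts

set_option autoImplicit false

namespace Pool.Agent.Idx.H18

open Pool.Agent.Idx

section
variable {T : Type} {Γ : Gram T}

theorem D_append {n m : ℕ} {α β : List (T ⊕ Γ.N)} {τ : List Γ.F} {φ ψ : List (T ⊕ Γ.N)}
    (h1 : D Γ n α τ φ) (h2 : D Γ m β τ ψ) : D Γ (n + m) (α ++ β) τ (φ ++ ψ) := by
  induction h1 with
  | nil τ => simpa using h2
  | term t _ ih => exact D.term t (ih h2)
  | ret A _ ih => exact D.ret A (ih h2)
  | r1 h3 h4 h5 _ _ ih =>
    have := D.r1 h3 h4 h5 (ih h2)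
    rw [List.append_assoc]
    convert this using 1
    · omega
    · rfl
  | r2 h3 h4 h5 _ _ ih =>
    have := D.r2 h3 h4 h5 (ih h2)
    rw [List.append_assoc]
    convert this using 1
    · omega
    · rfl
  | r3 h4 h5 _ _ ih =>
    have := D.r3 h4 h5 (ih h2)
    rw [List.append_assoc]
    convert this using 1
    · omega
    · rfl

theorem flat_nil : flat ([] : List (Item Γ)) = [] := rfl

theorem flat_cons (i : Item Γ) (c : List (Item Γ)) : flat (i :: c) = iword i ++ flat c := by
  simp [flat]

theorem flat_append (c d : List (Item Γ)) : flat (c ++ d) = flat c ++ flat d := by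
  simp [flat]

theorem form_append (c d : List (Item Γ)) : form (c ++ d) = form c ++ form d := by
  simp [form]

theorem form_cons (i : Item Γ) (c : List (Item Γ)) : form (i :: c) = isym i :: form c := rfl

theorem D_fill {σ : List Γ.F} {n : ℕ} {α : List (T ⊕ Γ.N)} {τ : List Γ.F} {φ : List (T ⊕ Γ.N)}
    (h : D Γ n α τ φ) : ∀ c : List (Item Γ), form c = φ → Fill σ c →
    ∃ m, D Γ m α (τ ++ σ) ((flat c).map Sum.inl) := by
  induction h with
  | nil τ =>
    intro c hc hf
    have : c = [] := by simpa [form] using hc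
    subst this
    exact ⟨0, D.nil _⟩
  | term t _ ih =>
    intro c hc hf
    cases c with
    | nil => simp [form] at hc
    | cons i c =>
      rw [form_cons, List.cons.injEq] at hc
      obtain ⟨m, hm⟩ := ih c hc.2 (fun A u b hb => hf A u b (List.mem_cons_of_mem _ hb))
      have hi : i = Sum.inl t := by
        cases i with
        | inl s => simpa [isym] using hc.1
        | inr x => simp [isym] at hc
      subst hi
      refine ⟨m, ?_⟩
      rw [flat_cons]
      exact D.term t hm
  | ret A _ ih =>
    intro c hc hf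
    cases c with
    | nil => simp [form] at hc
    | cons i c =>
      rw [form_cons, List.cons.injEq] at hc
      obtain ⟨m, hm⟩ := ih c hc.2 (fun A u b hb => hf A u b (List.mem_cons_of_mem _ hb))
      cases i with
      | inl s => simp [isym] at hc
      | inr x =>
        obtain ⟨A', u, b⟩ := x
        have hA : A' = A := by simpa [isym] using hc.1
        subst hA
        obtain ⟨k, hk⟩ := hf A' u b List.mem_cons_self
        refine ⟨k + m, ?_⟩
        rw [flat_cons, List.map_append]
        exact D_append hk hm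
  | r1 h3 h4 _ _ ih1 ih2 =>
    intro c hc hf
    obtain ⟨c1, c2, rfl, hc1, hc2⟩ := List.map_eq_append_iff.mp hc
    obtain ⟨m1, hm1⟩ := ih1 c1 hc1 (fun A u b hb => hf A u b (List.mem_append_left _ hb))
    obtain ⟨m2, hm2⟩ := ih2 c2 hc2 (fun A u b hb => hf A u b (List.mem_append_right _ hb))
    refine ⟨m1 + m2 + 1, ?_⟩
    rw [flat_append, List.map_append]
    exact D.r1 (by simp [h3]) h4 hm1 hm2
  | r2 h3 h4 _ _ ih1 ih2 =>
    intro c hc hf
    obtain ⟨c1, c2, rfl, hc1, hc2⟩ := List.map_eq_append_iff.mp hc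
    obtain ⟨m1, hm1⟩ := ih1 c1 hc1 (fun A u b hb => hf A u b (List.mem_append_left _ hb))
    obtain ⟨m2, hm2⟩ := ih2 c2 hc2 (fun A u b hb => hf A u b (List.mem_append_right _ hb))
    refine ⟨m1 + m2 + 1, ?_⟩
    rw [flat_append, List.map_append]
    exact D.r2 (by simp [h3]) h4 hm1 hm2
  | r3 h4 _ _ ih1 ih2 =>
    intro c hc hf
    obtain ⟨c1, c2, rfl, hc1, hc2⟩ := List.map_eq_append_iff.mp hc
    obtain ⟨m1, hm1⟩ := ih1 c1 hc1 (fun A u b hb => hf A u b (List.mem_append_left _ hb))
    obtain ⟨m2, hm2⟩ := ih2 c2 hc2 (fun A u b hb => hf A u b (List.mem_append_right _ hb))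
    refine ⟨m1 + m2 + 1, ?_⟩
    rw [flat_append, List.map_append]
    exact D.r3 h4 hm1 hm2

theorem mem_lang {σ τ : List Γ.F} {A : Γ.N} {c : List (Item Γ)}
    (h : ∃ n, D Γ n [Sum.inr A] τ (form c)) (hf : Fill σ c) : flat c ∈ Lang Γ A (τ ++ σ) := by
  obtain ⟨n, hn⟩ := h
  exact D_fill hn c rfl hf

theorem val_append {G : Type} [Group G] (ev : T → G) (u v : List T) :
    val ev (u ++ v) = val ev u * val ev v := by
  simp [val]

/-- In a context with one value the returns have one value. -/
theorem one_val {G : Type} [Group G] {ev : T → G} {σ τ : List Γ.F} {A : Γ.N}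
    {c : List (Item Γ)} (h : ∃ n, D Γ n [Sum.inr A] τ (form c)) (hf : Fill σ c)
    (hv : ∀ w ∈ Lang Γ A (τ ++ σ), val ev w = val ev (flat c)) {c1 c2 : List (Item Γ)}
    {E : Γ.N} {u : List T} {b : Bool} (hc : c = c1 ++ Sum.inr (E, u, b) :: c2) {u' : List T}
    (hu' : u' ∈ Lang Γ E σ) : val ev u' = val ev u := by
  subst hc
  have h1 : form (c1 ++ Sum.inr (E, u', b) :: c2) = form (c1 ++ Sum.inr (E, u, b) :: c2) := by
    rw [form_append, form_append, form_cons, form_cons]
    rfl
  have h2 : Fill σ (c1 ++ Sum.inr (E, u', b) :: c2) := by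
    intro A' w b' hw
    rcases List.mem_append.mp hw with hw | hw
    · exact hf A' w b' (List.mem_append_left _ hw)
    · rcases List.mem_cons.mp hw with hw | hw
      · have h3 := Sum.inr.inj hw
        simp only [Prod.mk.injEq] at h3
        rw [h3.1, h3.2.1]
        exact hu'
      · exact hf A' w b' (List.mem_append_right _ (List.mem_cons_of_mem _ hw))
  have h3 := hv _ (mem_lang (c := c1 ++ Sum.inr (E, u', b) :: c2) (by rw [h1]; exact h) h2)
  rw [flat_append, flat_append, flat_cons, flat_cons, val_append, val_append, val_append,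
    val_append] at h3
  exact mul_right_cancel (mul_left_cancel h3)

theorem holes_mem (c : List (Item Γ)) : ∀ (s : ℕ) (x : ℕ × Γ.N × List T), x ∈ holes s c →
    ∃ c1 c2, c = c1 ++ Sum.inr (x.2.1, x.2.2, true) :: c2 ∧ x.1 = s + (flat c1).length := by
  induction c with
  | nil =>
    intro s x hx
    simp [holes] at hx
  | cons i c ih =>
    intro s x hx
    match i with
    | Sum.inl t =>
      obtain ⟨c1, c2, h1, h2⟩ := ih (s + 1) x (by simpa [holes] using hx)
      refine ⟨Sum.inl t :: c1, c2, by rw [h1]; rfl, ?_⟩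
      rw [h2, flat_cons, List.length_append]
      simp only [iword, List.length_singleton]
      omega
    | Sum.inr (A, u, true) =>
      rcases List.mem_cons.mp (show x ∈ (s, A, u) :: holes (s + u.length) c from hx) with
        rfl | hx
      · exact ⟨[], c, rfl, rfl⟩
      · obtain ⟨c1, c2, h1, h2⟩ := ih _ x hx
        refine ⟨Sum.inr (A, u, true) :: c1, c2, by rw [h1]; rfl, ?_⟩
        rw [h2, flat_cons, List.length_append]
        simp only [iword]
        omega
    | Sum.inr (A, u, false) =>
      obtain ⟨c1, c2, h1, h2⟩ := ih (s + u.length) x hx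
      refine ⟨Sum.inr (A, u, false) :: c1, c2, by rw [h1]; rfl, ?_⟩
      rw [h2, flat_cons, List.length_append]
      simp only [iword]
      omega

theorem holes_big {Big : ℕ → ℕ → Prop} (c : List (Item Γ)) : ∀ (s : ℕ), Flags Big s c →
    ∀ x ∈ holes s c, Big x.1 (x.1 + x.2.2.length) := by
  induction c with
  | nil =>
    intro s _ x hx
    simp [holes] at hx
  | cons i c ih =>
    intro s hF x hx
    match i with
    | Sum.inl t => exact ih (s + 1) hF x (by simpa [holes] using hx)
    | Sum.inr (A, u, true) =>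
      rcases List.mem_cons.mp (show x ∈ (s, A, u) :: holes (s + u.length) c from hx) with
        rfl | hx
      · exact hF.1.mp rfl
      · exact ih _ hF.2 x hx
    | Sum.inr (A, u, false) => exact ih _ hF.2 x hx

theorem holes_ge (c : List (Item Γ)) (s : ℕ) : ∀ x ∈ holes s c, s ≤ x.1 := by
  intro x hx
  obtain ⟨c1, c2, -, h⟩ := holes_mem c s x hx
  omega

theorem holes_pw (c : List (Item Γ)) : ∀ (s : ℕ),
    List.Pairwise (fun x y => x.1 + x.2.2.length ≤ y.1) (holes s c) := by
  induction c with
  | nil =>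
    intro s
    simp [holes]
  | cons i c ih =>
    intro s
    match i with
    | Sum.inl t => exact ih (s + 1)
    | Sum.inr (A, u, true) =>
      refine List.pairwise_cons.mpr ⟨?_, ih _⟩
      intro y hy
      exact holes_ge c _ y hy
    | Sum.inr (A, u, false) => exact ih _

theorem sl_app (P u Q : List T) : sl (P ++ u ++ Q) P.length (P.length + u.length) = u := by
  simp [sl]

theorem bhol : BholStmt := by
  classical
  intro T G _ ev Γ k W Big X Z A τ σ c hk hfour hW hD hf hv hF
  by_contra hlt
  rw [not_le] at hlt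
  have hfin : Finite Γ.N := Γ.finN
  have hft : Fintype Γ.N := Fintype.ofFinite _
  set L := holes X.length c with hL
  let f : Fin L.length → Γ.N := fun i => (L.get i).2.1
  obtain ⟨E, hE⟩ := Fintype.exists_lt_card_fiber_of_mul_lt_card f (n := 3) (by
    rw [Fintype.card_fin, ← Nat.card_eq_fintype_card, hk]
    omega)
  obtain ⟨s, hs1, hs2⟩ := Finset.exists_subset_card_eq (n := 4) hE
  let g := s.orderEmbOfFin hs2
  have hg : ∀ i, f (g i) = E := by
    intro i
    have := hs1 (s.orderEmbOfFin_mem hs2 i)
    simpa using this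
  have hmem : ∀ i, L.get (g i) ∈ L := fun i => List.get_mem _ _
  have hpw : ∀ i j : Fin 4, i < j → (L.get (g i)).1 + (L.get (g i)).2.2.length ≤
      (L.get (g j)).1 := by
    intro i j hij
    exact List.pairwise_iff_get.mp (holes_pw c X.length) (g i) (g j) (g.lt_iff_lt.mpr hij)
  have hlen : ∀ i, (L.get (g i)).1 + (L.get (g i)).2.2.length ≤ W.length := by
    intro i
    obtain ⟨c1, c2, h1, h2⟩ := holes_mem c X.length _ (hmem i)
    rw [hW, List.length_append, List.length_append]
    have h3 : (flat c).length = (flat c1).length + ((L.get (g i)).2.2.length +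
        (flat c2).length) := by
      conv_lhs => rw [h1]
      rw [flat_append, flat_cons, List.length_append, List.length_append]
      rfl
    omega
  have hsl : ∀ i, sl W (L.get (g i)).1 ((L.get (g i)).1 + (L.get (g i)).2.2.length) =
      (L.get (g i)).2.2 := by
    intro i
    obtain ⟨c1, c2, h1, h2⟩ := holes_mem c X.length _ (hmem i)
    have h3 : W = (X ++ flat c1) ++ (L.get (g i)).2.2 ++ (flat c2 ++ Z) := by
      rw [hW]
      conv_lhs => rw [h1]
      rw [flat_append, flat_cons]
      simp only [iword, List.append_assoc]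
    have h4 : (L.get (g i)).1 = (X ++ flat c1).length := by
      rw [h2, List.length_append]
    rw [h4]
    conv_lhs => rw [h3]
    exact sl_app _ _ _
  have hval : ∀ i j, val ev (L.get (g i)).2.2 = val ev (L.get (g j)).2.2 := by
    intro i j
    obtain ⟨c1, c2, h1, h2⟩ := holes_mem c X.length _ (hmem j)
    obtain ⟨c1', c2', h1', h2'⟩ := holes_mem c X.length _ (hmem i)
    refine one_val hD hf hv h1 ?_
    have h3 : (L.get (g i)).2.2 ∈ Lang Γ (L.get (g i)).2.1 σ := by
      refine hf _ _ true ?_
      have h5 : Sum.inr ((L.get (g i)).2.1, (L.get (g i)).2.2, true) ∈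
          c1' ++ Sum.inr ((L.get (g i)).2.1, (L.get (g i)).2.2, true) :: c2' :=
        List.mem_append_right _ List.mem_cons_self
      rw [← h1'] at h5
      exact h5
    have h4 : (L.get (g i)).2.1 = (L.get (g j)).2.1 := (hg i).trans (hg j).symm
    rwa [h4] at h3
  refine hfour _ _ _ _ _ _ _ _ (Nat.le_add_right _ (L.get (g 0)).2.2.length)
    (hpw 0 1 (by decide)) (Nat.le_add_right _ (L.get (g 1)).2.2.length) (hpw 1 2 (by decide))
    (Nat.le_add_right _ (L.get (g 2)).2.2.length) (hpw 2 3 (by decide))
    (Nat.le_add_right _ (L.get (g 3)).2.2.length) (hlen 3)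
    (holes_big c _ hF _ (hmem 0)) (holes_big c _ hF _ (hmem 1)) (holes_big c _ hF _ (hmem 2))
    (holes_big c _ hF _ (hmem 3)) ?_ ?_ ?_
  · rw [hsl, hsl]
    exact hval _ _
  · rw [hsl, hsl]
    exact hval _ _
  · rw [hsl, hsl]
    exact hval _ _

end

end Pool.Agent.Idx.H18
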