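import Pool.Agent.Helper18_Idx.Bhol

set_option autoImplicit false

namespace Pool.Agent.Idx.H18

open Pool.Agent.Idx

section
variable {T T' : Type} (φ : T' → List T)

/-- The states of the transducer: the part of the current image that is still to be read. -/
abbrev Qs : Type := {r : List T // r = [] ∨ ∃ x, r <:+ φ x}

theorem finQs [Finite T'] : Finite (Qs φ) := by
  have h : ({r : List T | r = [] ∨ ∃ x, r <:+ φ x} : Set (List T)).Finite := by
    have h1 : ({r : List T | r = [] ∨ ∃ x, r <:+ φ x} : Set (List T)) =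
        {[]} ∪ ⋃ x, {r | r ∈ (φ x).tails} := by
      ext r
      simp [List.mem_tails]
    rw [h1]
    exact (Set.finite_singleton _).union (Set.finite_iUnion fun x => List.finite_toSet _)
  exact h.to_subtype

/-- The initial state. -/
def q0 : Qs φ := ⟨[], Or.inl rfl⟩

variable {φ}

/-- One letter is read. -/
def Stp (p : Qs φ) (t : T) (q : Qs φ) (w : List T') : Prop :=
  (p.1 = t :: q.1 ∧ w = []) ∨ (p.1 = [] ∧ ∃ x, φ x = t :: q.1 ∧ w = [x])

/-- Runs of the transducer. -/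
inductive Run : Qs φ → List T → Qs φ → List T' → Prop
  | nil (p : Qs φ) : Run p [] p []
  | cons {p s q : Qs φ} {t : T} {u : List T} {w1 w2 : List T'} : Stp p t s w1 →
      Run s u q w2 → Run p (t :: u) q (w1 ++ w2)

theorem run_app {p s q : Qs φ} {u v : List T} {w1 w2 : List T'} (h1 : Run p u s w1)
    (h2 : Run s v q w2) : Run p (u ++ v) q (w1 ++ w2) := by
  induction h1 with
  | nil p => exact h2
  | cons h3 _ ih =>
    rw [List.append_assoc]
    exact Run.cons h3 (ih h2)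

theorem run_split {u : List T} : ∀ {p q : Qs φ} {v : List T} {w : List T'},
    Run p (u ++ v) q w → ∃ s w1 w2, w = w1 ++ w2 ∧ Run p u s w1 ∧ Run s v q w2 := by
  induction u with
  | nil =>
    intro p q v w h
    exact ⟨p, [], w, rfl, Run.nil p, h⟩
  | cons t u ih =>
    intro p q v w h
    rw [List.cons_append] at h
    cases h with
    | cons h3 h4 =>
      obtain ⟨s, w1, w2, rfl, h5, h6⟩ := ih h4
      exact ⟨s, _ ++ w1, w2, by rw [List.append_assoc], Run.cons h3 h5, h6⟩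

theorem run_nil {p q : Qs φ} {w : List T'} (h : Run p [] q w) : q = p ∧ w = [] := by
  cases h
  exact ⟨rfl, rfl⟩

theorem run_eq {p q : Qs φ} {u : List T} {w : List T'} (h : Run p u q w) :
    p.1 ++ (w.map φ).flatten = u ++ q.1 := by
  induction h with
  | nil p => simp
  | cons h3 _ ih =>
    rcases h3 with ⟨h4, rfl⟩ | ⟨h4, x, h5, rfl⟩
    · rw [h4]
      simpa using ih
    · rw [h4]
      simp [h5, ih]

theorem run_rest (r : List T) : ∀ hr : r = [] ∨ ∃ x, r <:+ φ x,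
    Run (φ := φ) ⟨r, hr⟩ r (q0 φ) [] := by
  induction r with
  | nil =>
    intro hr
    exact Run.nil _
  | cons t r ih =>
    intro hr
    have hr' : r = [] ∨ ∃ x, r <:+ φ x := by
      rcases hr with h | ⟨x, h⟩
      · simp at h
      · exact Or.inr ⟨x, (List.suffix_cons t r).trans h⟩
    have := Run.cons (p := (⟨t :: r, hr⟩ : Qs φ)) (s := ⟨r, hr'⟩) (t := t) (w1 := [])
      (Or.inl ⟨rfl, rfl⟩) (ih hr')
    simpa using this

theorem run_word (hφ : ∀ x, φ x ≠ []) (w : List T') :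
    Run (q0 φ) ((w.map φ).flatten) (q0 φ) w := by
  induction w with
  | nil => exact Run.nil _
  | cons x w ih =>
    have h1 : Run (q0 φ) (φ x) (q0 φ) [x] := by
      cases hx : φ x with
      | nil => exact absurd hx (hφ x)
      | cons t r =>
        have hr' : r = [] ∨ ∃ x, r <:+ φ x := Or.inr ⟨x, by
          rw [hx]
          exact List.suffix_cons t r⟩
        have := Run.cons (p := q0 φ) (s := ⟨r, hr'⟩) (t := t) (w1 := [x])
          (Or.inr ⟨rfl, x, hx, rfl⟩) (run_rest r hr')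
        simpa using this
    have := run_app h1 ih
    simpa using this

/-! ## The new grammar -/

variable (φ) in
/-- Translation of the right hand sides. -/
inductive Tr {N : Type} : Qs φ → List (T ⊕ N) → Qs φ → List (T' ⊕ (Qs φ × N × Qs φ)) → Prop
  | nil (p : Qs φ) : Tr p [] p []
  | term {p s q : Qs φ} {t : T} {w : List T'} {α : List (T ⊕ N)}
      {α' : List (T' ⊕ (Qs φ × N × Qs φ))} :
      Stp p t s w → Tr s α q α' → Tr p (Sum.inl t :: α) q (w.map Sum.inl ++ α')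
  | non {p s q : Qs φ} {A : N} {α : List (T ⊕ N)} {α' : List (T' ⊕ (Qs φ × N × Qs φ))} :
      Tr s α q α' → Tr p (Sum.inr A :: α) q (Sum.inr (p, A, s) :: α')

theorem fin_stp [Finite T'] (p : Qs φ) (t : T) (q : Qs φ) : {w | Stp p t q w}.Finite := by
  refine ((Set.finite_singleton ([] : List T')).union
    (Set.finite_range (fun x : T' => [x]))).subset ?_
  rintro w (⟨-, rfl⟩ | ⟨-, x, -, rfl⟩)
  · exact Or.inl rfl
  · exact Or.inr ⟨x, rfl⟩

theorem fin_tr [Finite T'] {N : Type} (α : List (T ⊕ N)) : ∀ p q : Qs φ,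
    {α' | Tr φ p α q α'}.Finite := by
  have := finQs φ
  induction α with
  | nil =>
    intro p q
    refine (Set.finite_singleton []).subset ?_
    intro α' h
    cases h
    rfl
  | cons i α ih =>
    intro p q
    cases i with
    | inl t =>
      have h1 : {α' | Tr φ p (Sum.inl t :: α) q α'} ⊆ ⋃ s : Qs φ,
          Set.image2 (fun (w : List T') α' => w.map Sum.inl ++ α') {w | Stp p t s w}
            {α' | Tr φ s α q α'} := by
        intro α' h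
        cases h with
        | term h3 h4 => exact Set.mem_iUnion.mpr ⟨_, Set.mem_image2.mpr ⟨_, h3, _, h4, rfl⟩⟩
      exact (Set.finite_iUnion fun s => (fin_stp p t s).image2 _ (ih s q)).subset h1
    | inr A =>
      have h1 : {α' | Tr φ p (Sum.inr A :: α) q α'} ⊆ ⋃ s : Qs φ,
          (fun α' => Sum.inr (p, A, s) :: α') '' {α' | Tr φ s α q α'} := by
        intro α' h
        cases h with
        | non h4 => exact Set.mem_iUnion.mpr ⟨_, Set.mem_image_of_mem _ h4⟩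
      exact (Set.finite_iUnion fun s => (ih s q).image _).subset h1

variable (φ) in
/-- The grammar of the inverse image. -/
def invG [Finite T'] (Γ : Gram T) : Gram T' where
  N := Qs φ × Γ.N × Qs φ
  F := Γ.F
  finN := by
    have := finQs φ
    have := Γ.finN
    infer_instance
  finF := Γ.finF
  S := (q0 φ, Γ.S, q0 φ)
  bot := Γ.bot
  R1 := {x | ∃ α, (x.1.2.1, α) ∈ Γ.R1 ∧ Tr φ x.1.1 α x.1.2.2 x.2}
  R2 := {x | x.2.1.1 = x.1.1 ∧ x.2.1.2.2 = x.1.2.2 ∧ (x.1.2.1, x.2.1.2.1, x.2.2) ∈ Γ.R2}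
  R3 := {x | ∃ α, (x.1.2.1, x.2.1, α) ∈ Γ.R3 ∧ Tr φ x.1.1 α x.1.2.2 x.2.2}
  fin1 := by
    have := finQs φ
    have h1 : {x : (Qs φ × Γ.N × Qs φ) × List (T' ⊕ (Qs φ × Γ.N × Qs φ)) |
        ∃ α, (x.1.2.1, α) ∈ Γ.R1 ∧ Tr φ x.1.1 α x.1.2.2 x.2} ⊆
        ⋃ y ∈ Γ.R1, ⋃ p : Qs φ, ⋃ q : Qs φ, (fun α' => ((p, y.1, q), α')) ''
          {α' | Tr φ p y.2 q α'} := by
      rintro ⟨⟨p, A, q⟩, α'⟩ ⟨α, h2, h3⟩
      simp only [Set.mem_iUnion]
      exact ⟨(A, α), h2, p, q, Set.mem_image_of_mem _ h3⟩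
    exact (Γ.fin1.biUnion fun y _ => Set.finite_iUnion fun p => Set.finite_iUnion fun q =>
      (fin_tr y.2 p q).image _).subset h1
  fin3 := by
    have := finQs φ
    have h1 : {x : (Qs φ × Γ.N × Qs φ) × Γ.F × List (T' ⊕ (Qs φ × Γ.N × Qs φ)) |
        ∃ α, (x.1.2.1, x.2.1, α) ∈ Γ.R3 ∧ Tr φ x.1.1 α x.1.2.2 x.2.2} ⊆
        ⋃ y ∈ Γ.R3, ⋃ p : Qs φ, ⋃ q : Qs φ, (fun α' => ((p, y.1, q), y.2.1, α')) ''
          {α' | Tr φ p y.2.2 q α'} := by
      rintro ⟨⟨p, A, q⟩, f, α'⟩ ⟨α, h2, h3⟩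
      simp only [Set.mem_iUnion]
      exact ⟨(A, f, α), h2, p, q, Set.mem_image_of_mem _ h3⟩
    exact (Γ.fin3.biUnion fun y _ => Set.finite_iUnion fun p => Set.finite_iUnion fun q =>
      (fin_tr y.2.2 p q).image _).subset h1
  nobot := by
    rintro A α' ⟨α, h1, -⟩
    exact Γ.nobot _ _ h1

theorem D_terms {Γ : Gram T} {n : ℕ} {α : List (T ⊕ Γ.N)} {τ : List Γ.F}
    {ψ : List (T ⊕ Γ.N)} (h : D Γ n α τ ψ) (w : List T) :
    D Γ n (w.map Sum.inl ++ α) τ (w.map Sum.inl ++ ψ) := by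
  induction w with
  | nil => exact h
  | cons t w ih => exact D.term t ih

theorem D_terms_inv {Γ : Gram T} {n : ℕ} {α : List (T ⊕ Γ.N)} {τ : List Γ.F}
    (w : List T) : ∀ {ψ : List (T ⊕ Γ.N)}, D Γ n (w.map Sum.inl ++ α) τ ψ →
    ∃ ψ', ψ = w.map Sum.inl ++ ψ' ∧ D Γ n α τ ψ' := by
  induction w with
  | nil =>
    intro ψ h
    exact ⟨ψ, rfl, h⟩
  | cons t w ih =>
    intro ψ h
    rw [List.map_cons, List.cons_append] at h
    cases h with
    | term _ h1 =>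
      obtain ⟨ψ', rfl, h2⟩ := ih h1
      exact ⟨ψ', rfl, h2⟩

theorem D_nil_inv {Γ : Gram T} {n : ℕ} {τ : List Γ.F} {ψ : List (T ⊕ Γ.N)}
    (h : D Γ n [] τ ψ) : ψ = [] := by
  cases h
  rfl

/-- From the old to the new grammar. -/
theorem to_new [Finite T'] {Γ : Gram T} {n : ℕ} {α : List (T ⊕ Γ.N)} {τ : List Γ.F}
    {ψ : List (T ⊕ Γ.N)} (h : D Γ n α τ ψ) : ∀ (u : List T) (p q : Qs φ) (w : List T'),
    ψ = u.map Sum.inl → Run p u q w → ∃ α', Tr φ p α q α' ∧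
      ∃ n', D (invG φ Γ) n' α' τ (w.map Sum.inl) := by
  induction h with
  | nil τ =>
    intro u p q w hu hr
    have : u = [] := by simpa using hu.symm
    subst this
    obtain ⟨rfl, rfl⟩ := run_nil hr
    exact ⟨[], Tr.nil _, 0, D.nil _⟩
  | term t _ ih =>
    intro u p q w hu hr
    cases u with
    | nil => simp at hu
    | cons t' u =>
      rw [List.map_cons, List.cons.injEq] at hu
      obtain ⟨h1, h2⟩ := hu
      have ht : t = t' := Sum.inl.inj h1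
      subst ht
      cases hr with
      | cons h3 h4 =>
        obtain ⟨α', h5, n', h6⟩ := ih u _ _ _ h2 h4
        refine ⟨_, Tr.term h3 h5, n', ?_⟩
        rw [List.map_append]
        exact D_terms h6 _
  | ret A _ ih =>
    intro u p q w hu hr
    cases u with
    | nil => simp at hu
    | cons t' u => simp at hu
  | r1 h3 h4 _ _ ih1 ih2 =>
    intro u p q w hu hr
    obtain ⟨u1, u2, rfl, hu1, hu2⟩ := List.map_eq_append_iff.mp hu.symm
    obtain ⟨s, w1, w2, rfl, h5, h6⟩ := run_split hr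
    obtain ⟨β', h7, n1, h8⟩ := ih1 u1 _ _ _ hu1.symm h5
    obtain ⟨α', h9, n2, h10⟩ := ih2 u2 _ _ _ hu2.symm h6
    refine ⟨_, Tr.non h9, n1 + n2 + 1, ?_⟩
    rw [List.map_append]
    exact D.r1 h3 (show _ ∈ (invG φ Γ).R1 from ⟨_, h4, h7⟩) h8 h10
  | r2 h3 h4 _ _ ih1 ih2 =>
    intro u p q w hu hr
    obtain ⟨u1, u2, rfl, hu1, hu2⟩ := List.map_eq_append_iff.mp hu.symm
    obtain ⟨s, w1, w2, rfl, h5, h6⟩ := run_split hr
    obtain ⟨β', h7, n1, h8⟩ := ih1 u1 _ _ _ hu1.symm h5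
    obtain ⟨α', h9, n2, h10⟩ := ih2 u2 _ _ _ hu2.symm h6
    cases h7 with
    | non h11 =>
      cases h11
      refine ⟨_, Tr.non h9, n1 + n2 + 1, ?_⟩
      rw [List.map_append]
      refine D.r2 h3 ?_ h8 h10
      exact ⟨rfl, rfl, h4⟩
  | r3 h4 _ _ ih1 ih2 =>
    intro u p q w hu hr
    obtain ⟨u1, u2, rfl, hu1, hu2⟩ := List.map_eq_append_iff.mp hu.symm
    obtain ⟨s, w1, w2, rfl, h5, h6⟩ := run_split hr
    obtain ⟨β', h7, n1, h8⟩ := ih1 u1 _ _ _ hu1.symm h5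
    obtain ⟨α', h9, n2, h10⟩ := ih2 u2 _ _ _ hu2.symm h6
    refine ⟨_, Tr.non h9, n1 + n2 + 1, ?_⟩
    rw [List.map_append]
    exact D.r3 (show _ ∈ (invG φ Γ).R3 from ⟨_, h4, h7⟩) h8 h10

/-- Inversion for a nonterminal. -/
theorem D_inv {Γ : Gram T} {n : ℕ} {A : Γ.N} {α : List (T ⊕ Γ.N)} {τ : List Γ.F}
    {ψ : List (T ⊕ Γ.N)} (h : D Γ n (Sum.inr A :: α) τ ψ) :
    (∃ ψ', ψ = Sum.inr A :: ψ') ∨
    (∃ n1 m β ψ1 ψ2, n = n1 + m + 1 ∧ ψ = ψ1 ++ ψ2 ∧ τ ≠ [] ∧ (A, β) ∈ Γ.R1 ∧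
      D Γ n1 β τ ψ1 ∧ D Γ m α τ ψ2) ∨
    (∃ n1 m B f ψ1 ψ2, n = n1 + m + 1 ∧ ψ = ψ1 ++ ψ2 ∧ τ ≠ [] ∧ (A, B, f) ∈ Γ.R2 ∧
      D Γ n1 [Sum.inr B] (f :: τ) ψ1 ∧ D Γ m α τ ψ2) ∨
    (∃ n1 m β f τ' ψ1 ψ2, n = n1 + m + 1 ∧ ψ = ψ1 ++ ψ2 ∧ τ = f :: τ' ∧ (A, f, β) ∈ Γ.R3 ∧
      D Γ n1 β τ' ψ1 ∧ D Γ m α τ ψ2) := by
  cases h with
  | ret _ h => exact Or.inl ⟨_, rfl⟩
  | r1 h1 h2 h3 h4 => exact Or.inr (Or.inl ⟨_, _, _, _, _, rfl, rfl, h1, h2, h3, h4⟩)
  | r2 h1 h2 h3 h4 =>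
    exact Or.inr (Or.inr (Or.inl ⟨_, _, _, _, _, _, rfl, rfl, h1, h2, h3, h4⟩))
  | r3 h2 h3 h4 =>
    exact Or.inr (Or.inr (Or.inr ⟨_, _, _, _, _, _, _, rfl, rfl, rfl, h2, h3, h4⟩))

/-- From the new to the old grammar. -/
theorem to_old [Finite T'] {Γ : Gram T} (n : ℕ) : ∀ (p q : Qs φ) (α : List (T ⊕ Γ.N))
    (α' : List (T' ⊕ (Qs φ × Γ.N × Qs φ))), Tr φ p α q α' → ∀ (m : ℕ) (τ : List Γ.F)
    (w : List T'), m ≤ n → D (invG φ Γ) m α' τ (w.map Sum.inl) →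
    ∃ u, Run p u q w ∧ ∃ n', D Γ n' α τ (u.map Sum.inl) := by
  induction n using Nat.strong_induction_on with
  | _ n IH =>
  intro p q α α' htr
  induction htr with
  | nil p =>
    intro m τ w hm hD
    have : w = [] := by simpa using D_nil_inv hD
    subst this
    exact ⟨[], Run.nil _, 0, D.nil _⟩
  | term h1 _ ih =>
    intro m τ w hm hD
    obtain ⟨ψ', h2, h3⟩ := D_terms_inv _ hD
    obtain ⟨w1, w2, rfl, hw1, hw2⟩ := List.map_eq_append_iff.mp h2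
    have hw : w1 = _ := List.map_injective_iff.mpr Sum.inl_injective hw1
    subst hw
    obtain ⟨u, hu, n', hn'⟩ := ih m τ w2 hm (by rw [hw2]; exact h3)
    exact ⟨_, Run.cons h1 hu, n', D.term _ hn'⟩
  | @non p s q A α α' h1 ih =>
    intro m τ w hm hD
    rcases D_inv hD with ⟨ψ', h2⟩ | ⟨n1, m1, β, ψ1, ψ2, h2, h3, h4, h5, h6, h7⟩ |
      ⟨n1, m1, B, f, ψ1, ψ2, h2, h3, h4, h5, h6, h7⟩ |
      ⟨n1, m1, β, f, τ', ψ1, ψ2, h2, h3, h4, h5, h6, h7⟩
    · cases w with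
      | nil => simp at h2
      | cons x w => simp at h2
    · obtain ⟨w1, w2, rfl, hw1, hw2⟩ := List.map_eq_append_iff.mp h3
      obtain ⟨β0, h8, h9⟩ := h5
      obtain ⟨u1, hu1, k1, hk1⟩ := IH n1 (by omega) p s β0 β h9 n1 τ w1 le_rfl
        (by rw [hw1]; exact h6)
      obtain ⟨u2, hu2, k2, hk2⟩ := ih m1 τ w2 (by omega) (by rw [hw2]; exact h7)
      refine ⟨u1 ++ u2, run_app hu1 hu2, k1 + k2 + 1, ?_⟩
      rw [List.map_append]
      exact D.r1 h4 h8 hk1 hk2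
    · obtain ⟨w1, w2, rfl, hw1, hw2⟩ := List.map_eq_append_iff.mp h3
      obtain ⟨p', B', s'⟩ := B
      obtain ⟨h8, h9, h10⟩ := h5
      simp only at h8 h9 h10
      subst h8
      subst h9
      obtain ⟨u1, hu1, k1, hk1⟩ := IH n1 (by omega) p' s' [Sum.inr B'] [Sum.inr (p', B', s')]
        (Tr.non (Tr.nil _)) n1 (f :: τ) w1 le_rfl (by rw [hw1]; exact h6)
      obtain ⟨u2, hu2, k2, hk2⟩ := ih m1 τ w2 (by omega) (by rw [hw2]; exact h7)
      refine ⟨u1 ++ u2, run_app hu1 hu2, k1 + k2 + 1, ?_⟩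
      rw [List.map_append]
      exact D.r2 h4 h10 hk1 hk2
    · obtain ⟨w1, w2, rfl, hw1, hw2⟩ := List.map_eq_append_iff.mp h3
      obtain ⟨β0, h8, h9⟩ := h5
      subst h4
      obtain ⟨u1, hu1, k1, hk1⟩ := IH n1 (by omega) p s β0 β h9 n1 τ' w1 le_rfl
        (by rw [hw1]; exact h6)
      obtain ⟨u2, hu2, k2, hk2⟩ := ih m1 (f :: τ') w2 (by omega) (by rw [hw2]; exact h7)
      refine ⟨u1 ++ u2, run_app hu1 hu2, k1 + k2 + 1, ?_⟩
      rw [List.map_append]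
      exact D.r3 h8 hk1 hk2

end

theorem clos : ClosStmt := by
  intro T T' _ Γ φ hφ
  refine ⟨invG φ Γ, ?_⟩
  ext w
  constructor
  · rintro ⟨n, hn⟩
    obtain ⟨u, hu, n', hn'⟩ := to_old n (q0 φ) (q0 φ) [Sum.inr Γ.S]
      [Sum.inr (q0 φ, Γ.S, q0 φ)] (Tr.non (Tr.nil _)) n [Γ.bot] w le_rfl hn
    have h1 := run_eq hu
    have h2 : (w.map φ).flatten = u := by simpa [q0] using h1
    show (w.map φ).flatten ∈ Lang Γ Γ.S [Γ.bot]
    rw [h2]
    exact ⟨n', hn'⟩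
  · rintro ⟨n, hn⟩
    obtain ⟨α', h1, n', h2⟩ := to_new hn _ (q0 φ) (q0 φ) w rfl (run_word hφ w)
    cases h1 with
    | non h3 =>
      cases h3
      exact ⟨n', h2⟩

end Pool.Agent.Idx.H18
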