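import Pool.Agent.Helper85_Idx.Stmts

set_option autoImplicit false

namespace Pool.Agent.Idx.H18

open Pool.Agent.Idx

section
variable (S : Setup) {m₀ m : ℕ} (h : Fin m₀ × Fin m₀ → Fin m → Bool)

theorem val_app' {T G : Type} [Group G] (ev : T → G) (u v : List T) :
    val ev (u ++ v) = val ev u * val ev v := by
  simp [val]

theorem val_word {V : Type} (h : V → Fin m → Bool) (segs : List (Seg V S.T)) :
    val S.ev (word S h segs) = (segs.map (fun s => val S.ev (segw S h s))).prod := by
  induction segs with
  | nil => rfl
  | cons s segs ih =>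
    have : word S h (s :: segs) = segw S h s ++ word S h segs := by
      simp [word]
    rw [this, val_app', ih, List.map_cons, List.prod_cons]

theorem prod_flatMap' {α β G : Type} [Monoid G] (v : β → G) (l : List α) (f : α → List β) :
    ((l.flatMap f).map v).prod = (l.map (fun x => ((f x).map v).prod)).prod := by
  induction l with
  | nil => rfl
  | cons a l ih => simp [ih]

/-- the commuting elements -/
noncomputable def gg (x : Fin m₀ × Fin m₀) : S.H :=
  val S.ev ((List.ofFn (h x)).map S.pl) * (S.ev (S.pl true))⁻¹ ^ m

theorem gg_comm (hS : Comm2 S) (x y : Fin m₀ × Fin m₀) : Commute (gg S h x) (gg S h y) := by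
  have := hS (List.ofFn (h x)) (List.ofFn (h y))
  rw [List.length_ofFn, List.length_ofFn] at this
  exact this

theorem val_pay_true (x : Fin m₀ × Fin m₀) :
    val S.ev (segw S h (Seg.pay x true)) = (val S.ev ((List.ofFn (h x)).map S.pl))⁻¹ := by
  unfold val segw
  rw [List.prod_inv_reverse, List.map_reverse, List.map_map, List.map_map, List.map_map]
  congr 2
  refine List.map_congr_left fun b _ => ?_
  simp [S.inv]

theorem val_con (b : S.T) (k : ℕ) : val S.ev (List.replicate k b) = S.ev b ^ k := by
  simp [val]

end

theorem mval : MvalStmt := by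
  classical
  intro S hS m₀ m h
  rw [val_word]
  unfold mseg mrow mcol
  rw [List.map_append, List.prod_append, prod_flatMap', prod_flatMap']
  simp only [prod_flatMap']
  have e1 : ∀ i j : Fin m₀, (([Seg.pay (i, j) false, Seg.con (List.replicate m (S.ni true))] :
      List (Seg (Fin m₀ × Fin m₀) S.T)).map (fun s => val S.ev (segw S h s))).prod =
      gg S h (i, j) := by
    intro i j
    rw [List.map_cons, List.map_cons, List.map_nil, List.prod_cons, List.prod_cons,
      List.prod_nil, mul_one]
    show val S.ev ((List.ofFn (h (i, j))).map S.pl) * val S.ev (List.replicate m (S.ni true)) = _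
    rw [val_con, S.inv]
    rfl
  have e2 : ∀ i j : Fin m₀, (([Seg.con (List.replicate m (S.pl true)), Seg.pay (i, j) true] :
      List (Seg (Fin m₀ × Fin m₀) S.T)).map (fun s => val S.ev (segw S h s))).prod =
      (gg S h (i, j))⁻¹ := by
    intro i j
    rw [List.map_cons, List.map_cons, List.map_nil, List.prod_cons, List.prod_cons,
      List.prod_nil, mul_one, val_pay_true]
    show val S.ev (List.replicate m (S.pl true)) * _ = _
    rw [val_con, gg, mul_inv_rev, inv_pow, inv_inv]
  simp only [e1, e2]
  -- the commutative subgroup
  let k : Set S.H := Set.range (gg S h)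
  letI : CommGroup (Subgroup.closure k) := Subgroup.closureCommGroupOfComm (by
    rintro _ ⟨x, rfl⟩ _ ⟨y, rfl⟩
    exact gg_comm S h hS x y)
  let g' : Fin m₀ → Fin m₀ → Subgroup.closure k := fun i j =>
    ⟨gg S h (i, j), Subgroup.subset_closure ⟨(i, j), rfl⟩⟩
  have key : ((List.finRange m₀).map (fun i => ((List.finRange m₀).map (fun j =>
        g' i j)).prod)).prod *
      ((List.finRange m₀).reverse.map (fun j => ((List.finRange m₀).reverse.map (fun i =>
        (g' i j)⁻¹)).prod)).prod = 1 := by
    have h1 : ∀ f : Fin m₀ → Subgroup.closure k,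
        ((List.finRange m₀).reverse.map f).prod = ∏ i, f i := by
      intro f
      rw [((List.reverse_perm (List.finRange m₀)).map f).prod_eq, Fin.prod_univ_def]
    have h2 : ∀ f : Fin m₀ → Subgroup.closure k,
        ((List.finRange m₀).map f).prod = ∏ i, f i := by
      intro f
      rw [Fin.prod_univ_def]
    rw [h1, h2]
    simp only [h1, h2]
    rw [Finset.prod_comm, ← Finset.prod_mul_distrib]
    refine Finset.prod_eq_one fun j _ => ?_
    rw [← Finset.prod_mul_distrib]
    exact Finset.prod_eq_one fun i _ => mul_inv_cancel _
  have key2 := congrArg (Subgroup.closure k).subtype key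
  rw [map_mul, map_list_prod, map_list_prod, map_one, List.map_map, List.map_map] at key2
  convert key2 using 4
  · funext i
    simp only [Function.comp_apply, map_list_prod, List.map_map]
    rfl
  · funext j
    simp only [Function.comp_apply, map_list_prod, List.map_map]
    rfl

end Pool.Agent.Idx.H18
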